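import Pool.Agent.H5Z.NilMain

/-! For every `k ≥ 1` there is a `(k + 1)`-step interpolation set which is not a `k`-step
interpolation set. -/

set_option autoImplicit false

namespace Pool.Agent.Results.MP_1b26ca_an.AllSteps

open Pool.Agent.H5Z.Nil

theorem result (k : ℕ) (hk : 1 ≤ k) :
    ∃ S : Set ℕ+, IsInterpolationSet (k + 1) S ∧ ¬ IsInterpolationSet k S :=
  main k hk

end Pool.Agent.Results.MP_1b26ca_an.AllSteps
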